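import Mathlib

/-!
# A space for the compact-open `k`-cover game
-/

namespace Pool.Agent.Results.MP_c6d0b8_gt.SumExample

open Set Filter Topology MeasureTheory

/-- The first `n` answers of Two. -/
def history {X : Type} (U : ℕ → Set X) (n : ℕ) : List (Set X) := List.ofFn fun i : Fin n => U i

/-- One has a winning strategy in `G₁(N[K(X)], ¬K_X)`: the move of One in round `n` is a nonempty
compact set which depends on the first `n` answers of Two; Two answers with an open set containing
the move of One, and each nonempty compact set is contained in one of the answers. -/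
def OneWinsCompactGame (X : Type) [TopologicalSpace X] : Prop :=
  ∃ σ : List (Set X) → Set X, (∀ h, IsCompact (σ h) ∧ (σ h).Nonempty) ∧
    ∀ U : ℕ → Set X, (∀ n, IsOpen (U n) ∧ σ (history U n) ⊆ U n) →
      ∀ K : Set X, IsCompact K → ∃ n, K ⊆ U n

/-- One has a winning strategy in the finite-open game: the move of One in round `n` is a finite
set which depends on the first `n` answers of Two; Two answers with an open set containing the
move of One, and the answers cover the space. -/
def OneWinsFiniteGame (X : Type) [TopologicalSpace X] : Prop :=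
  ∃ σ : List (Set X) → Set X, (∀ h, (σ h).Finite) ∧
    ∀ U : ℕ → Set X, (∀ n, IsOpen (U n) ∧ σ (history U n) ⊆ U n) → (⋃ n, U n) = Set.univ

/-- One has a winning predetermined strategy in `G₁(N[K(X)], ¬K_X)`: a fixed sequence of nonempty
compact sets which defeats all answers of Two. -/
def OnePreWinsCompactGame (X : Type) [TopologicalSpace X] : Prop :=
  ∃ C : ℕ → Set X, (∀ n, IsCompact (C n) ∧ (C n).Nonempty) ∧
    ∀ U : ℕ → Set X, (∀ n, IsOpen (U n) ∧ C n ⊆ U n) → ∀ K : Set X, IsCompact K → ∃ n, K ⊆ U n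

/-- The one-point Lindelöfication of the discrete set `ℝ`. -/
def L : Type := Option ℝ

instance : TopologicalSpace L where
  IsOpen U := (none : Option ℝ) ∈ U → Uᶜ.Countable
  isOpen_univ := fun _ => by simp
  isOpen_inter U V hU hV := fun h => by
    rw [Set.compl_inter]
    exact (hU h.1).union (hV h.2)
  isOpen_sUnion S hS := by
    rintro ⟨U, hU, h⟩
    exact (hS U hU h).mono (Set.compl_subset_compl.2 (Set.subset_sUnion_of_mem hU))

theorem isOpen_iff (U : Set L) : IsOpen U ↔ ((none : Option ℝ) ∈ U → Uᶜ.Countable) := Iff.rfl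

instance : T2Space L := by
  refine ⟨fun x y hxy => ?_⟩
  have key : ∀ (x y : L), x ≠ (none : Option ℝ) → x ≠ y →
      ∃ u v : Set L, IsOpen u ∧ IsOpen v ∧ x ∈ u ∧ y ∈ v ∧ Disjoint u v := by
    intro x y hx hxy
    refine ⟨{x}, {x}ᶜ, ?_, ?_, rfl, fun h => hxy h.symm, disjoint_compl_right⟩
    · rw [isOpen_iff]
      intro h
      exact absurd h.symm hx
    · rw [isOpen_iff, compl_compl]
      exact fun _ => Set.countable_singleton x
  by_cases hx : x = (none : Option ℝ)
  · obtain ⟨u, v, hu, hv, h1, h2, h3⟩ := key y x (fun h => hxy (hx.trans h.symm)) hxy.symm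
    exact ⟨v, u, hv, hu, h2, h1, h3.symm⟩
  · exact key x y hx hxy

theorem finite_of_isCompact {K : Set L} (hK : IsCompact K) : K.Finite := by
  by_contra hinf
  have hinf : (K \ {(none : Option ℝ)}).Infinite :=
    Set.Infinite.sdiff hinf (Set.finite_singleton _)
  obtain ⟨C, hCK, hCinf, hCc⟩ : ∃ C ⊆ K \ {(none : Option ℝ)}, C.Infinite ∧ C.Countable := by
    let e := hinf.natEmbedding
    refine ⟨Set.range fun n => ((e n : _) : L), ?_, ?_, Set.countable_range _⟩
    · rintro _ ⟨n, rfl⟩
      exact (e n).2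
    · exact Set.infinite_range_of_injective fun a b h => e.injective (Subtype.ext h)
  let U : Option C → Set L := fun c => match c with
    | none => Cᶜ
    | some c => {c.1}
  obtain ⟨t, ht⟩ := hK.elim_finite_subcover U (by
    rintro (_ | c)
    · rw [isOpen_iff]
      intro _
      change (Cᶜ)ᶜ.Countable
      rwa [compl_compl]
    · rw [isOpen_iff]
      intro h
      exact absurd h.symm (fun h' => (hCK c.2).2 h')) (by
    intro x _
    by_cases hx : x ∈ C
    · exact Set.mem_iUnion.2 ⟨some ⟨x, hx⟩, rfl⟩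
    · exact Set.mem_iUnion.2 ⟨none, hx⟩)
  apply hCinf
  have h1 : C ⊆ (fun c : Option C => match c with
    | none => (none : Option ℝ)
    | some c => c.1) '' (t : Set (Option C)) := by
    intro x hx
    obtain ⟨c, hc, hxc⟩ := Set.mem_iUnion₂.1 (ht (hCK hx).1)
    rcases c with _ | c
    · exact absurd hx hxc
    · exact ⟨some c, hc, hxc.symm⟩
  exact (t.finite_toSet.image _).subset h1

/-- The example: the topological sum of the one-point Lindelöfication of the discrete set `ℝ` and
the unit interval. -/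
abbrev E : Type := L ⊕ unitInterval

theorem one_wins : OneWinsCompactGame E := by
  classical
  have hex : ∀ V : Set E, ∃ f : ℕ → L, {x : L | Sum.inl x ∉ V}.Countable →
      {x : L | Sum.inl x ∉ V} ⊆ Set.range f := by
    intro V
    by_cases hc : {x : L | Sum.inl x ∉ V}.Countable
    · have : Nonempty L := ⟨(none : Option ℝ)⟩
      obtain ⟨f, hf⟩ := Set.countable_iff_exists_subset_range.1 hc
      exact ⟨f, fun _ => hf⟩
    · exact ⟨fun _ => (none : Option ℝ), fun h => absurd h hc⟩
  choose e he using hex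
  let σ : List (Set E) → Set E := fun h => Set.range Sum.inr ∪ {Sum.inl (none : Option ℝ)} ∪
    ⋃ V ∈ h.toFinset, ⋃ j ∈ Finset.range h.length, {Sum.inl (e V j)}
  refine ⟨σ, fun h => ⟨?_, ?_⟩, ?_⟩
  · refine ((isCompact_range continuous_inr).union isCompact_singleton).union ?_
    refine Set.Finite.isCompact ?_
    refine Set.Finite.biUnion (Finset.finite_toSet _) fun V _ => ?_
    exact Set.Finite.biUnion (Finset.finite_toSet _) fun j _ => Set.finite_singleton _
  · exact ⟨Sum.inl (none : Option ℝ), Or.inl (Or.inr rfl)⟩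
  · intro U hU K hK
    have hF : ((Sum.inl : L → E) ⁻¹' K).Finite :=
      finite_of_isCompact (IsClosedEmbedding.inl.isCompact_preimage hK)
    have hstep : ∀ x : L, ∃ n, ∀ m ≥ n, (Sum.inl x : E) ∈ U m := by
      intro x
      by_cases hall : ∀ n, (Sum.inl x : E) ∈ U n
      · exact ⟨0, fun m _ => hall m⟩
      · push Not at hall
        obtain ⟨n, hn⟩ := hall
        have h1 : IsOpen ((Sum.inl : L → E) ⁻¹' U n) := (hU n).1.preimage continuous_inl
        have h2 : {x : L | Sum.inl x ∉ U n}.Countable :=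
          (isOpen_iff _).1 h1 ((hU n).2 (Or.inl (Or.inr rfl)))
        obtain ⟨j, hj⟩ := he (U n) h2 hn
        refine ⟨max n j + 1, fun m hm => (hU m).2 (Or.inr ?_)⟩
        have h3 : U n ∈ (history U m).toFinset := by
          rw [List.mem_toFinset, history, List.mem_ofFn]
          exact ⟨⟨n, by omega⟩, rfl⟩
        refine Set.mem_biUnion (Finset.mem_coe.2 h3) ?_
        refine Set.mem_biUnion (x := j) ?_ ?_
        · rw [history, List.length_ofFn, Finset.coe_range, Set.mem_Iio]
          omega
        · rw [hj]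
          rfl
    choose n hn using hstep
    obtain ⟨N, hN⟩ := (hF.image n).bddAbove
    refine ⟨N, ?_⟩
    rintro (x | x) hx
    · exact hn x N (hN ⟨x, hx, rfl⟩)
    · exact (hU N).2 (Or.inl (Or.inl ⟨x, rfl⟩))

theorem one_not_wins_finite : ¬ OneWinsFiniteGame E := by
  rintro ⟨σ, hσ, hwin⟩
  -- the answers of Two
  have hans : ∀ h : List (Set E), ∃ V : Set E, IsOpen V ∧ σ h ⊆ V ∧
      volume ((Sum.inr : unitInterval → E) ⁻¹' V) < ENNReal.ofReal ((1 / 2 : ℝ) ^ (h.length + 2)) := by
    intro h
    have h1 : ((Sum.inr : unitInterval → E) ⁻¹' σ h).Finite := (hσ h).preimage Sum.inr_injective.injOn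
    obtain ⟨W, hW1, hW2, hW3⟩ := Set.exists_isOpen_lt_of_lt
      ((Sum.inr : unitInterval → E) ⁻¹' σ h) (ENNReal.ofReal ((1 / 2 : ℝ) ^ (h.length + 2)))
      (μ := volume) (by
        rw [h1.measure_zero]
        positivity)
    refine ⟨Set.range Sum.inl ∪ Sum.inr '' W, ?_, ?_, ?_⟩
    · exact isOpen_range_inl.union (isOpenMap_inr _ hW2)
    · rintro (x | x) hx
      · exact Or.inl ⟨x, rfl⟩
      · exact Or.inr ⟨x, hW1 hx, rfl⟩
    · refine lt_of_le_of_lt (measure_mono ?_) hW3
      rintro x (⟨y, hy⟩ | ⟨y, hy, hxy⟩)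
      · exact absurd hy (by simp)
      · rwa [← Sum.inr_injective hxy]
  choose ρ hρ1 hρ2 hρ3 using hans
  let hist : ℕ → List (Set E) := fun n => Nat.rec [] (fun _ h => h ++ [ρ h]) n
  have hhist : ∀ n, hist (n + 1) = hist n ++ [ρ (hist n)] := fun n => rfl
  let U : ℕ → Set E := fun n => ρ (hist n)
  have hist_eq : ∀ n, hist n = history U n := by
    intro n
    induction n with
    | zero => rfl
    | succ n ih =>
      rw [hhist, history, List.ofFn_succ']
      simp only [List.concat_eq_append]
      congr 1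
  have hlen : ∀ n, (hist n).length = n := fun n => by rw [hist_eq, history, List.length_ofFn]
  have hcov := hwin U fun n => ⟨hρ1 _, by rw [← hist_eq]; exact hρ2 _⟩
  have h1 : (volume : Measure unitInterval) Set.univ ≤
      ∑' n, volume ((Sum.inr : unitInterval → E) ⁻¹' U n) := by
    refine le_trans (measure_mono ?_) (measure_iUnion_le _)
    intro x _
    have : (Sum.inr x : E) ∈ ⋃ n, U n := hcov ▸ Set.mem_univ _
    obtain ⟨n, hn⟩ := Set.mem_iUnion.1 this
    exact Set.mem_iUnion.2 ⟨n, hn⟩
  have h2 : ∑' n, volume ((Sum.inr : unitInterval → E) ⁻¹' U n) ≤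
      ∑' n : ℕ, ENNReal.ofReal ((1 / 2 : ℝ) ^ (n + 2)) := by
    refine ENNReal.tsum_le_tsum fun n => ?_
    have := (hρ3 (hist n)).le
    rwa [hlen] at this
  have h3 : ∑' n : ℕ, ENNReal.ofReal ((1 / 2 : ℝ) ^ (n + 2)) = ENNReal.ofReal (1 / 2) := by
    rw [← ENNReal.ofReal_tsum_of_nonneg (fun n => by positivity)]
    · congr 1
      have : ∀ n : ℕ, (1 / 2 : ℝ) ^ (n + 2) = (1 / 4) * (1 / 2) ^ n := fun n => by ring
      simp_rw [this]
      rw [tsum_mul_left, tsum_geometric_two]
      norm_num
    · have : ∀ n : ℕ, (1 / 2 : ℝ) ^ (n + 2) = (1 / 4) * (1 / 2) ^ n := fun n => by ring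
      simp_rw [this]
      exact summable_geometric_two.mul_left _
  have h4 := h1.trans (h2.trans_eq h3)
  rw [measure_univ] at h4
  have h5 : ENNReal.ofReal (1 / 2) < 1 := by
    rw [← ENNReal.ofReal_one]
    exact (ENNReal.ofReal_lt_ofReal_iff (by norm_num)).2 (by norm_num)
  exact absurd h4 (not_le.2 h5)

theorem one_not_pre : ¬ OnePreWinsCompactGame E := by
  rintro ⟨C, hC, hwin⟩
  have hc : (⋃ n, (Sum.inl : L → E) ⁻¹' C n).Countable :=
    Set.countable_iUnion fun n =>
      (finite_of_isCompact (IsClosedEmbedding.inl.isCompact_preimage (hC n).1)).countable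
  have hc' : {r : ℝ | (some r : Option ℝ) ∈ ⋃ n, (Sum.inl : L → E) ⁻¹' C n}.Countable :=
    Set.Countable.preimage_of_injOn hc (Option.some_injective ℝ).injOn
  obtain ⟨r, hr⟩ : ∃ r : ℝ, (some r : Option ℝ) ∉ ⋃ n, (Sum.inl : L → E) ⁻¹' C n := by
    by_contra hcon
    push Not at hcon
    have : (Set.univ : Set ℝ).Countable := hc'.mono fun r _ => hcon r
    exact Set.not_countable_univ this
  let p : E := Sum.inl (some r : Option ℝ)
  have hsub : ∀ n, C n ⊆ {p}ᶜ := by
    intro n x hx hxp
    apply hr
    refine Set.mem_iUnion.2 ⟨n, ?_⟩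
    rw [Set.mem_singleton_iff] at hxp
    rw [hxp] at hx
    exact hx
  obtain ⟨n, hn⟩ := hwin (fun _ => {p}ᶜ) (fun n => ⟨isOpen_compl_singleton, hsub n⟩) {p}
    isCompact_singleton
  exact hn rfl rfl

/-- There is a Hausdorff space `X` on which One has a winning strategy in the compact-open
`k`-cover game, but neither a winning strategy in the finite-open game nor a winning predetermined
strategy in the compact-open `k`-cover game. -/
theorem result : ∃ (X : Type) (_ : TopologicalSpace X), T2Space X ∧ OneWinsCompactGame X ∧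
    ¬ OneWinsFiniteGame X ∧ ¬ OnePreWinsCompactGame X :=
  ⟨E, inferInstance, inferInstance, one_wins, one_not_wins_finite, one_not_pre⟩

end Pool.Agent.Results.MP_c6d0b8_gt.SumExample
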